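import Pool.Agent.Helper83.TW.Goals1

/-! Packet TW-GNum of helper83 (`MP_39e2b7_an`). -/

set_option autoImplicit false

namespace Pool.Agent.Helper63.TWNum

open Pool.Agent.Helper83.TW

theorem gnum : GNum := by
  refine ⟨2000, fun ρ hρ0 hρ1 => ?_⟩
  -- basic constants
  set d : ℝ := ρ / 128 with hd
  have hd0 : 0 < d := by positivity
  have hd1 : d ≤ 1 / 512 := by rw [hd]; linarith
  set b : ℝ := -Real.log d with hb
  have hexpb : Real.exp (-b) = d := by rw [hb, neg_neg, Real.exp_log hd0]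
  have hexpb' : Real.exp b = 1 / d := by
    rw [hb, Real.exp_neg, Real.exp_log hd0, one_div]
  have he1 := Real.exp_one_gt_d9
  have he2 := Real.exp_one_lt_d9
  have hexp6 : Real.exp 6 ≤ 512 := by
    have : Real.exp 6 = Real.exp 1 ^ 6 := by rw [← Real.exp_nat_mul]; norm_num
    rw [this]
    calc Real.exp 1 ^ 6 ≤ (2.7182818286 : ℝ) ^ 6 := by gcongr
      _ ≤ 512 := by norm_num
  have hexp6' : 400 ≤ Real.exp 6 := by
    have : Real.exp 6 = Real.exp 1 ^ 6 := by rw [← Real.exp_nat_mul]; norm_num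
    rw [this]
    calc (400 : ℝ) ≤ (2.7182818283 : ℝ) ^ 6 := by norm_num
      _ ≤ Real.exp 1 ^ 6 := by gcongr
  have hb6 : 6 ≤ b := by
    rw [← Real.exp_le_exp, hexpb']
    refine hexp6.trans ?_
    rw [le_div_iff₀ hd0]
    linarith
  have hb0 : 0 < b := by linarith
  set s0 : ℝ := d / (400 * b) with hs0
  have hs00 : 0 < s0 := by positivity
  have hs0d : s0 * (400 * b) = d := by rw [hs0]; field_simp
  have hs0d' : s0 ≤ d / 2400 := by
    rw [le_div_iff₀ (by norm_num)]
    rw [← hs0d]
    gcongr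
    linarith
  -- the sequences
  set E : ℕ → ℝ := fun n => 400 * b * (3/2) ^ n with hE
  set l : ℕ → ℝ := fun n => 3 * b + 2 * n with hl
  have hEl : ∀ n, 130 * l n ≤ E n := by
    intro n
    have h1 : 1 + (n : ℝ) * (1/2) ≤ (1 + 1/2 : ℝ) ^ n := one_add_mul_le_pow (by norm_num) n
    have h2 : (1 + 1/2 : ℝ) = 3/2 := by norm_num
    rw [h2] at h1
    have h3 : 400 * b * (1 + (n : ℝ) * (1/2)) ≤ E n := by
      simp only [hE]
      gcongr
    refine le_trans ?_ h3
    simp only [hl]
    have hn : (0:ℝ) ≤ n := Nat.cast_nonneg n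
    nlinarith
  have hl6 : ∀ n, 18 ≤ l n := by
    intro n
    simp only [hl]
    have hn : (0:ℝ) ≤ n := Nat.cast_nonneg n
    linarith
  have hEs : ∀ n, E (n+1) = 3/2 * E n := by
    intro n
    simp only [hE, pow_succ]; ring
  set Λ : ℕ → ℝ := fun n => 4 ^ n / s0 with hΛ
  have hΛ0 : ∀ n, 0 < Λ n := fun n => by simp only [hΛ]; positivity
  have hΛl : ∀ n, Λ n ≤ Real.exp (l n) := by
    intro n
    have h1 : (4:ℝ) ≤ Real.exp 2 := by
      have : Real.exp 2 = Real.exp 1 ^ 2 := by rw [← Real.exp_nat_mul]; norm_num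
      rw [this]
      nlinarith
    have h2 : (4:ℝ) ^ n ≤ Real.exp (2 * n) := by
      rw [mul_comm, Real.exp_nat_mul]
      gcongr
    have h3 : 1 / s0 ≤ Real.exp (3 * b) := by
      have h4 : 1 / s0 = 400 * b * (1 / d) := by
        rw [← hs0d]; field_simp
      rw [h4, ← hexpb']
      have h5 : 400 ≤ Real.exp b := hexp6'.trans (Real.exp_le_exp.mpr hb6)
      have h6 : b ≤ Real.exp b := by linarith [Real.add_one_le_exp b]
      calc 400 * b * Real.exp b ≤ Real.exp b * Real.exp b * Real.exp b := by gcongr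
        _ = Real.exp (3 * b) := by rw [← Real.exp_add, ← Real.exp_add]; ring_nf
    simp only [hΛ, hl]
    rw [Real.exp_add, div_eq_mul_one_div, mul_comm]
    gcongr
  have hΛbig : ∀ n, 1024 ≤ Λ n := by
    intro n
    have h1 : (1:ℝ) ≤ 4 ^ n := one_le_pow₀ (by norm_num)
    simp only [hΛ]
    rw [le_div_iff₀ hs00]
    have : 1024 * s0 ≤ 1 := by linarith
    linarith
  set η : ℕ → ℝ := fun n => Real.exp (-E n) with hη
  have hη0 : ∀ n, 0 < η n := fun n => Real.exp_pos _
  have hpow : ∀ n k : ℕ, Λ n ^ k ≤ Real.exp (k * l n) := by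
    intro n k
    rw [Real.exp_nat_mul]
    exact pow_le_pow_left₀ (hΛ0 n).le (hΛl n) k
  set M : ℕ → ℕ := fun n => ⌊Λ n⌋₊ with hM
  have hMle : ∀ n, (M n : ℝ) ≤ Λ n := fun n => Nat.floor_le (hΛ0 n).le
  have hMge : ∀ n, Λ n / 2 ≤ M n := by
    intro n
    have h1 : Λ n < ⌊Λ n⌋₊ + 1 := Nat.lt_floor_add_one _
    have h2 := hΛbig n
    simp only [hM]
    linarith
  set s : ℕ → ℝ := fun n => s0 / 4 ^ n with hs
  set δ : ℕ → ℝ := fun n => d / 2 ^ n with hδ
  set r : ℕ → ℝ := fun n => ρ / 8 + 16 * δ n with hr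
  have hΛs : ∀ n, Λ n * s n = 1 := by
    intro n
    simp only [hΛ, hs]
    field_simp
  have hδ0 : ∀ n, 0 < δ n := fun n => by simp only [hδ]; positivity
  have hδd : ∀ n, δ n ≤ d := by
    intro n
    simp only [hδ]
    exact div_le_self hd0.le (one_le_pow₀ (by norm_num))
  have hs0' : ∀ n, 0 < s n := fun n => by simp only [hs]; positivity
  have hη40 : ∀ n, Λ n ^ 40 * η n ≤ 1 := by
    intro n
    calc Λ n ^ 40 * η n ≤ Real.exp ((40:ℕ) * l n) * Real.exp (-E n) := by
          gcongr
          exact hpow n 40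
      _ = Real.exp (40 * l n - E n) := by rw [← Real.exp_add]; norm_num; ring_nf
      _ ≤ 1 := by
        rw [Real.exp_le_one_iff]
        have := hEl n
        have := hl6 n
        linarith
  have hη10 : ∀ n, Λ n ^ 10 * η n ≤ s n := by
    intro n
    have h1 : Λ n ^ 11 * η n ≤ 1 := by
      calc Λ n ^ 11 * η n ≤ Real.exp ((11:ℕ) * l n) * Real.exp (-E n) := by
            gcongr
            exact hpow n 11
        _ = Real.exp (11 * l n - E n) := by rw [← Real.exp_add]; norm_num; ring_nf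
        _ ≤ 1 := by
          rw [Real.exp_le_one_iff]
          have := hEl n
          have := hl6 n
          linarith
    calc Λ n ^ 10 * η n = Λ n ^ 10 * η n * (Λ n * s n) := by rw [hΛs, mul_one]
      _ = (Λ n ^ 11 * η n) * s n := by ring
      _ ≤ 1 * s n := by gcongr
      _ = s n := one_mul _
  have hsum : HasSum s (s0 * (4/3)) := by
    have h1 : HasSum (fun n : ℕ => s0 * (1/4 : ℝ) ^ n) (s0 * (1 - 1/4)⁻¹) :=
      (hasSum_geometric_of_lt_one (by norm_num) (by norm_num)).mul_left s0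
    have h2 : (fun n : ℕ => s0 * (1/4 : ℝ) ^ n) = s := by
      funext n
      simp only [hs]
      rw [one_div, inv_pow, div_eq_mul_inv]
    have h3 : (1 - 1/4 : ℝ)⁻¹ = 4/3 := by norm_num
    rw [h2, h3] at h1
    exact h1
  refine ⟨r, s, δ, Λ, η, M, ?_, ?_, ?_, ?_, ?_, ?_, ?_, ?_, ?_⟩
  · simp only [hr, hδ, hd]
    ring
  · intro n
    refine ⟨hρ0, hρ1, ?_, ?_, hδ0 n, hδd n, hs0' n, ?_, hΛbig n, (hΛs n).ge, ?_, hMle n, ?_,
      hη0 n, hη40 n⟩
    · have := hδ0 n
      simp only [hr]
      linarith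
    · have := hδd n
      simp only [hr]
      linarith
    · simp only [hs, hδ]
      have h1 : (2:ℝ) ^ n ≤ 4 ^ n := by gcongr; norm_num
      have h2 : s0 ≤ d := by linarith
      gcongr
    · have h1 := hMge n
      have h2 := hΛbig n
      have h3 : (1:ℝ) ≤ M n := by linarith
      exact_mod_cast h3
    · calc (M n : ℝ) * s n ≤ Λ n * s n := by
            gcongr
            exact hMle n
        _ = 1 := hΛs n
  · intro n
    simp only [hr, hδ, pow_succ]
    field_simp
    ring
  · intro n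
    simp only [hs, pow_succ]
    field_simp
  · intro n
    simp only [hδ, pow_succ]
    field_simp
  · intro n
    have hEn := hEl n
    have hln := hl6 n
    have h1 : Λ n ^ 20 * η n ^ 2 ≤ Real.exp (-(3/2) * E n - 1) := by
      calc Λ n ^ 20 * η n ^ 2 ≤ Real.exp ((20:ℕ) * l n) * Real.exp (-E n) ^ 2 := by
            gcongr
            exact hpow n 20
        _ = Real.exp (20 * l n - 2 * E n) := by
            rw [← Real.exp_nat_mul, ← Real.exp_add]; norm_num; ring_nf
        _ ≤ _ := by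
          rw [Real.exp_le_exp]
          linarith
    have h2 : 3 * E n ≤ 2 * Real.pi * M n * δ n := by
      have h3 : E n ≤ Λ n * δ n := by
        have h4 : Λ n * δ n = 400 * b * 2 ^ n := by
          simp only [hΛ, hδ]
          have h6 : (4:ℝ) ^ n = 2 ^ n * 2 ^ n := by rw [← mul_pow]; norm_num
          rw [h6, ← hs0d]
          field_simp
        rw [h4]
        simp only [hE]
        gcongr
        norm_num
      have h5 := hMge n
      have hpi := Real.pi_gt_three
      calc 3 * E n ≤ Real.pi * E n := by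
            gcongr
        _ ≤ Real.pi * (Λ n * δ n) := by gcongr
        _ = 2 * Real.pi * (Λ n / 2) * δ n := by ring
        _ ≤ 2 * Real.pi * M n * δ n := by
            gcongr
    have h3 : Λ n * η n * Real.exp (-(2 * Real.pi * M n * δ n)) ≤
        Real.exp (-(3/2) * E n - 1) := by
      calc Λ n * η n * Real.exp (-(2 * Real.pi * M n * δ n))
          ≤ Real.exp (l n) * Real.exp (-E n) * Real.exp (-(3 * E n)) := by
            gcongr
            exact hΛl n
        _ = Real.exp (l n - E n - 3 * E n) := by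
            rw [← Real.exp_add, ← Real.exp_add]; ring_nf
        _ ≤ _ := by
          rw [Real.exp_le_exp]
          linarith
    have h4 : 2 * Real.exp (-(3/2) * E n - 1) ≤ η (n+1) := by
      simp only [hη]
      rw [hEs n]
      have h5 : Real.exp (-(3/2) * E n - 1) = Real.exp (-(3/2 * E n)) * (Real.exp 1)⁻¹ := by
        rw [← Real.exp_neg, ← Real.exp_add]; ring_nf
      rw [h5]
      have h6 : 2 * (Real.exp 1)⁻¹ ≤ 1 := by
        rw [← div_eq_mul_inv, div_le_one (Real.exp_pos 1)]
        linarith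
      calc 2 * (Real.exp (-(3/2 * E n)) * (Real.exp 1)⁻¹)
          = Real.exp (-(3/2 * E n)) * (2 * (Real.exp 1)⁻¹) := by ring
        _ ≤ Real.exp (-(3/2 * E n)) * 1 := by gcongr
        _ = _ := mul_one _
    linarith
  · exact Summable.of_nonneg_of_le (fun n => by have := hΛ0 n; have := hη0 n; positivity)
      hη10 hsum.summable
  · intro n
    calc ∑ k ∈ Finset.range n, Λ k ^ 10 * η k ≤ ∑ k ∈ Finset.range n, s k :=
          Finset.sum_le_sum fun k _ => hη10 k
      _ ≤ s0 * (4/3) := sum_le_hasSum _ (fun k _ => (hs0' k).le) hsum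
      _ ≤ ρ / 128 := by linarith
  · have h1 : η 0 = d ^ 400 := by
      simp only [hη, hE, pow_zero, mul_one]
      rw [← hexpb, ← Real.exp_nat_mul]
      norm_num
    rw [h1]
    have h2 : ρ ^ 5 ≤ d := by
      have h3 : ρ ^ 4 ≤ (1/4) ^ 4 := by gcongr
      have h4 : ρ ^ 5 = ρ * ρ ^ 4 := by ring
      rw [h4, hd]
      have : ρ * ρ ^ 4 ≤ ρ * (1/4) ^ 4 := by gcongr
      refine this.trans ?_
      norm_num
      linarith
    calc ρ ^ 2000 = (ρ ^ 5) ^ 400 := by rw [← pow_mul]
      _ ≤ d ^ 400 := by gcongr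

end Pool.Agent.Helper63.TWNum
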